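import Pool.Agent.Helper44.Sub.Defs2
import Pool.Agent.Helper44.Sub.Toast

set_option autoImplicit false

/-!
Block S9 of MP_bdf835_lc, stage 2: gluing over an invariant colour modulo a subgroup, and the
measurability and invariance of the colour of a toast in direct system form.
-/

namespace Pool.Agent.Helper44.Sub

variable {X G : Type} [MeasurableSpace X] [Group G]

/-- Gluing over an invariant measurable colour, modulo N. -/
theorem HHN_glue [Countable G] {A : RAct X G} (N : Subgroup G) (D : ℕ)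
    (P : Fin D → X → Prop) (hPm : ∀ a, MeasurableSet {x | P a x})
    (hPinv : ∀ a x s, P a (A.act x s) ↔ P a x) (hex : ∀ x, ∃ a, P a x)
    (w : Fin D → ℕ → X → G) (hw1 : ∀ a m, MF (w a m))
    (hw2 : ∀ a m, ∃ T : Finset G, ∀ x, w a m x ∈ T)
    (hw3 : ∀ a x s, P a x → {m | (w a m x)⁻¹ * s * w a m (A.act x s) ∉ N}.Finite) :
    HHN A N := by
  classical
  have hne : ∀ x, ∃ a : Fin D, P a x ∧ ∀ b : Fin D, b < a → ¬ P b x := by
    intro x
    have h1 : (Finset.univ.filter (fun a => P a x)).Nonempty := by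
      obtain ⟨a, ha⟩ := hex x
      exact ⟨a, Finset.mem_filter.2 ⟨Finset.mem_univ _, ha⟩⟩
    refine ⟨(Finset.univ.filter (fun a => P a x)).min' h1, ?_, ?_⟩
    · exact (Finset.mem_filter.1 (Finset.min'_mem _ h1)).2
    · intro b hb hPb
      have := Finset.min'_le (Finset.univ.filter (fun a => P a x)) b
        (Finset.mem_filter.2 ⟨Finset.mem_univ _, hPb⟩)
      exact absurd hb (not_lt.2 this)
  choose α hα1 hα2 using hne
  have huniq : ∀ x a, (P a x ∧ ∀ b : Fin D, b < a → ¬ P b x) → α x = a := by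
    intro x a ⟨h1, h2⟩
    rcases lt_trichotomy (α x) a with h | h | h
    · exact absurd (hα1 x) (h2 _ h)
    · exact h
    · exact absurd h1 (hα2 x _ h)
  have hαinv : ∀ x g, α (A.act x g) = α x := by
    intro x g
    apply huniq
    refine ⟨(hPinv _ _ _).2 (hα1 x), fun b hb h => hα2 x b hb ((hPinv _ _ _).1 h)⟩
  have hαm : ∀ a, MeasurableSet {x | α x = a} := by
    intro a
    have h1 : {x | α x = a} = {x | P a x} ∩ ⋂ b : Fin D, ⋂ _ : b < a, {x | P b x}ᶜ := by
      ext x
      simp only [Set.mem_ofPred_eq, Set.mem_inter_iff, Set.mem_iInter, Set.mem_compl_iff]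
      constructor
      · intro h
        subst h
        exact ⟨hα1 x, hα2 x⟩
      · intro h
        exact huniq x a h
    rw [h1]
    exact (hPm a).inter (MeasurableSet.iInter fun b => MeasurableSet.iInter fun _ => (hPm b).compl)
  refine ⟨fun m x => w (α x) m x, ?_, ?_, ?_⟩
  · intro m b
    have h1 : {x | w (α x) m x = b} = ⋃ a : Fin D, {x | α x = a} ∩ {x | w a m x = b} := by
      ext x
      simp only [Set.mem_ofPred_eq, Set.mem_iUnion, Set.mem_inter_iff]
      constructor
      · intro h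
        exact ⟨α x, rfl, h⟩
      · rintro ⟨a, ha, h⟩
        rw [ha]
        exact h
    change MeasurableSet {x | w (α x) m x = b}
    rw [h1]
    exact MeasurableSet.iUnion fun a => (hαm a).inter (hw1 a m b)
  · intro m
    choose T hT using fun a => hw2 a m
    refine ⟨Finset.univ.biUnion T, fun x => ?_⟩
    exact Finset.mem_biUnion.2 ⟨α x, Finset.mem_univ _, hT _ _⟩
  · intro x s
    have h2 := hw3 (α x) x s (hα1 x)
    refine h2.subset ?_
    intro m hm
    have hm' : (w (α x) m x)⁻¹ * s * w (α (A.act x s)) m (A.act x s) ∉ N := hm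
    rw [hαinv] at hm'
    exact hm'

/-- the iterated connecting maps have measurable level sets -/
theorem MF_Dl [Countable G] {A : RAct X G} {δ : ℕ → X → G} (h : ∀ t, MF (δ t)) (t : ℕ) :
    MF (Dl A δ t) := by
  induction t with
  | zero => exact MF.constT 1
  | succ t ih =>
    exact MF.bindT ih (F := fun g x => g * δ t (A.act x g))
      (fun g => MF.mapT (MF.compT (h t) (A.meas g)) (fun b => g * b))

/-- the colour of a point in a direct system is measurable -/
theorem meas_Dl [Countable G] {A : RAct X G} {δ : ℕ → X → G} (h : ∀ t, MF (δ t))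
    (M : ℕ → Subgroup G) : MeasurableSet {x | ∀ s s', ∃ t,
      (Dl A δ t (A.act x s))⁻¹ * s' * Dl A δ t (A.act (A.act x s) s') ∈ M t} := by
  have h1 : {x | ∀ s s', ∃ t,
      (Dl A δ t (A.act x s))⁻¹ * s' * Dl A δ t (A.act (A.act x s) s') ∈ M t} =
      ⋂ s : G, ⋂ s' : G, ⋃ t : ℕ, ⋃ a : G, ⋃ b : G, ⋃ _ : a⁻¹ * s' * b ∈ M t,
        (fun x => A.act x s) ⁻¹' {y | Dl A δ t y = a} ∩
          (fun x => A.act x (s * s')) ⁻¹' {y | Dl A δ t y = b} := by
    ext x
    simp only [Set.mem_ofPred_eq, Set.mem_iInter, Set.mem_iUnion, Set.mem_inter_iff,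
      Set.mem_preimage, A.mul]
    constructor
    · intro hx s s'
      obtain ⟨t, ht⟩ := hx s s'
      exact ⟨t, _, _, ht, rfl, rfl⟩
    · intro hx s s'
      obtain ⟨t, a, b, hab, ha, hb⟩ := hx s s'
      exact ⟨t, by rw [ha, hb]; exact hab⟩
  rw [h1]
  exact MeasurableSet.iInter fun s => MeasurableSet.iInter fun s' => MeasurableSet.iUnion fun t =>
    MeasurableSet.iUnion fun a => MeasurableSet.iUnion fun b => MeasurableSet.iUnion fun _ =>
      (A.meas s (MF_Dl h t a)).inter (A.meas (s * s') (MF_Dl h t b))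

/-- the colour of a point in a direct system is invariant -/
theorem inv_Dl {A : RAct X G} {δ : ℕ → X → G} (M : ℕ → Subgroup G) (x : X) (g : G) :
    (∀ s s', ∃ t, (Dl A δ t (A.act (A.act x g) s))⁻¹ * s' *
      Dl A δ t (A.act (A.act (A.act x g) s) s') ∈ M t) ↔
    ∀ s s', ∃ t, (Dl A δ t (A.act x s))⁻¹ * s' * Dl A δ t (A.act (A.act x s) s') ∈ M t := by
  constructor
  · intro h s s'
    obtain ⟨t, ht⟩ := h (g⁻¹ * s) s'
    refine ⟨t, ?_⟩
    rw [A.mul x g, mul_inv_cancel_left] at ht
    exact ht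
  · intro h s s'
    obtain ⟨t, ht⟩ := h (g * s) s'
    refine ⟨t, ?_⟩
    rw [A.mul x g]
    exact ht

end Pool.Agent.Helper44.Sub
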